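import Pool.Agent.Helper55.RG.Spec6

/-! # RG, part MDG: the Galois extension generated by a finite stable set -/

set_option autoImplicit false

namespace Pool.Agent.Helper85.RG

theorem mdg_aux (k k' : Type) [Field k] [CharZero k] [Field k'] [Algebra k k']
    [IsSepClosure k k'] (B : Set k') (m : ℕ) (hfin : B.Finite) (hcard : B.ncard ≤ m)
    (hst : ∀ (σ : k' ≃ₐ[k] k'), ∀ x ∈ B, σ x ∈ B) :
    ∃ M : IntermediateField k k', FiniteDimensional k M ∧ IsGalois k M ∧
      Module.finrank k M ∣ m.factorial ∧ B ⊆ M := by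
  have hgal : IsGalois k k' := IsSepClosure.isGalois
  have hint : ∀ x : k', IsIntegral k x := fun x => (Algebra.IsIntegral.isIntegral (R := k) x)
  obtain ⟨M, hM⟩ : ∃ M : IntermediateField k k', M = IntermediateField.adjoin k B := ⟨_, rfl⟩
  have hBM : B ⊆ M := by rw [hM]; exact IntermediateField.subset_adjoin k B
  have hfd : FiniteDimensional k M := by
    have : Finite B := hfin
    rw [hM]
    exact IntermediateField.finiteDimensional_adjoin fun x _ => hint x
  have hnor : Normal k M := by
    rw [IntermediateField.normal_iff_forall_map_le']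
    intro σ
    rw [hM, IntermediateField.adjoin_map]
    apply IntermediateField.adjoin.mono
    rintro _ ⟨x, hx, rfl⟩
    exact hst σ x hx
  have hgM : IsGalois k M := ⟨⟩
  refine ⟨M, hfd, hgM, ?_, hBM⟩
  have hact : ∀ (σ : M ≃ₐ[k] M) (x : M), (x : k') ∈ B → ((σ x : M) : k') ∈ B := by
    intro σ x hx
    obtain ⟨τ, hτ⟩ := AlgEquiv.restrictNormalHom_surjective (F := k) (E := k') (K₁ := M) σ
    have h1 : ((σ x : M) : k') = τ (x : k') := by
      rw [← hτ]
      exact AlgEquiv.restrictNormal_commutes τ M x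
    rw [h1]
    exact hst τ _ hx
  let S : SubMulAction (M ≃ₐ[k] M) M :=
    { carrier := {x | (x : k') ∈ B}
      smul_mem' := fun σ x hx => hact σ x hx }
  have hinj : Function.Injective (MulAction.toPermHom (M ≃ₐ[k] M) S) := by
    rw [injective_iff_map_eq_one]
    intro σ hσ
    have h1 : ∀ x : M, (x : k') ∈ B → σ x = x := by
      intro x hx
      have h2 := congrArg (fun f : Equiv.Perm S => ((f ⟨x, hx⟩ : S) : M)) hσ
      exact h2
    -- the fixed field contains `B`
    have h3 : M ≤ (IntermediateField.fixedField (Subgroup.zpowers σ)).map M.val := by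
      conv_lhs => rw [hM]
      rw [IntermediateField.adjoin_le_iff]
      intro x hx
      suffices h9 : (⟨x, hBM hx⟩ : M) ∈ IntermediateField.fixedField (Subgroup.zpowers σ) from
        ⟨⟨x, hBM hx⟩, h9, rfl⟩
      rw [IntermediateField.mem_fixedField_iff]
      intro τ hτ
      obtain ⟨n, rfl⟩ := Subgroup.mem_zpowers_iff.1 hτ
      have h4 : ∀ n : ℤ, (σ ^ n) ⟨x, hBM hx⟩ = (⟨x, hBM hx⟩ : M) := by
        intro n
        have h5 : σ • (⟨x, hBM hx⟩ : M) = ⟨x, hBM hx⟩ := h1 ⟨x, hBM hx⟩ hx
        have h6 : σ ∈ MulAction.stabilizer (M ≃ₐ[k] M) (⟨x, hBM hx⟩ : M) := h5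
        exact (Subgroup.zpow_mem _ h6 n)
      exact h4 n
    ext y
    obtain ⟨z, hz, hzy⟩ := h3 y.2
    have h4 : z = y := Subtype.ext hzy
    have hz' : z ∈ IntermediateField.fixedField (Subgroup.zpowers σ) := hz
    rw [IntermediateField.mem_fixedField_iff] at hz'
    have h5 := hz' σ (Subgroup.mem_zpowers σ)
    rw [h4] at h5
    rw [h5]
    rfl
  have hfS : Finite S := by
    have : Finite B := hfin
    refine Finite.of_injective (fun x : S => (⟨((x : M) : k'), x.2⟩ : B)) ?_
    intro x y hxy
    have := congrArg (fun z : B => (z : k')) hxy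
    exact Subtype.ext (Subtype.ext this)
  have hcS : Nat.card S ≤ m := by
    have : Finite B := hfin
    refine le_trans ?_ hcard
    rw [← Nat.card_coe_set_eq]
    refine Nat.card_le_card_of_injective (fun x : S => (⟨((x : M) : k'), x.2⟩ : B)) ?_
    intro x y hxy
    have := congrArg (fun z : B => (z : k')) hxy
    exact Subtype.ext (Subtype.ext this)
  rw [← IsGalois.card_aut_eq_finrank k M]
  refine (Subgroup.card_dvd_of_injective _ hinj).trans ?_
  rw [Nat.card_perm]
  exact Nat.factorial_dvd_factorial hcS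

theorem mdg : Pool.Agent.Helper55.RG.S_MDG := by
  intro k k' _ _ _ _ _ B m hfin hcard hst
  exact mdg_aux k k' B m hfin hcard hst

end Pool.Agent.Helper85.RG
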