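import Pool.Agent.Helper55.RG.Spec6
import Pool.Agent.Helper35.RG.SUR

/-! # RG, part SU2 (the proof of SUR with control of the action on the constants) -/

set_option autoImplicit false
set_option linter.all false

open Polynomial IsDedekindDomain NumberField
open scoped Classical

namespace Pool.Agent.Helper85.RG

open Pool.Agent.TH115.GD Pool.Agent.Helper55.RG Pool.Agent.Helper55.TT Pool.Agent.R939.EI
open Pool.Agent.Helper35.RG Pool.Agent.Helper35.RG.SUR

theorem ev2_eq {k k' : Type} [Field k] [Field k'] [Algebra k k'] (θ b : k') (g : k[X][X]) :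
    Pool.Agent.Helper55.RG.ev2 (algebraMap k k') θ b g =
      ((g.map (mapRingHom (algebraMap k k'))).map (evalRingHom θ)).eval b := by
  unfold Pool.Agent.Helper55.RG.ev2
  rw [Polynomial.map_map, eval_map]
  congr 1
  refine RingHom.ext fun q => ?_
  show eval₂ (algebraMap k k') θ q = (q.map (algebraMap k k')).eval θ
  rw [eval_map]

theorem su2 : S_SU2 := by
  intro k k' K F _ _ _ _ _ _ _ _ _ _ hT π θ hπ hθ ι g hg hirr α hα σ
  haveI := hT.sep
  haveI := hT.fracK
  haveI : IsSepClosed k' := IsSepClosure.sep_closed k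
  haveI : CharZero k' := charZero_of_injective_algebraMap (algebraMap k k').injective
  haveI : IsAlgClosed k' := inferInstance
  haveI : Algebra.IsSeparable k k' := IsSepClosure.separable
  haveI : Algebra.IsAlgebraic k k' := inferInstance
  haveI : IsSepClosure K (Sep F) := sepKΩ hT.map
  haveI : Normal K (Sep F) := inferInstance
  set L := Comp k'[X] F (pl θ) with hL
  set g' : k'[X][X] := g.map (mapRingHom (algebraMap k k')) with hg'
  have hg'm : g'.Monic := hg.map _
  have hsep := sep_red (k' := k') hπ hθ hirr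
  obtain ⟨B, hB1, hB2⟩ := UNR.roots_struct (F := F) g' θ hg'm hsep
  have hroot : ∀ x : Sep F, eval₂ (em k K (Sep F)) x g = 0 →
      ∃ b, (g'.map (evalRingHom θ)).eval b = 0 ∧ ι x = algebraMap L (Sep L) (B b) := by
    intro x hx
    exact hB2 _ (ι x) (UNR.root_image θ ι (em_K hT.map hx))
  have hinv : ∀ (τ : Sep F ≃ₐ[K] Sep F) (x : Sep F), eval₂ (em k K (Sep F)) x g = 0 →
      eval₂ (em k K (Sep F)) (τ x) g = 0 := by
    intro τ x hx
    have h1 : (τ : Sep F →+* Sep F).comp (em k K (Sep F)) = em k K (Sep F) := by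
      refine RingHom.ext fun q => ?_
      show τ (algebraMap K (Sep F) (algebraMap k[X] K q)) = _
      rw [τ.commutes]
      rfl
    have := hom_eval₂ g (em k K (Sep F)) (τ : Sep F →+* Sep F) x
    rw [hx, map_zero, h1] at this
    exact this.symm
  obtain ⟨b, hb, hιb⟩ := hroot α hα
  obtain ⟨b₂, hb₂, hιb₂⟩ := hroot (σ α) (hinv σ α hα)
  refine ⟨b, b₂, by rw [ev2_eq]; exact hb, by rw [ev2_eq]; exact hb₂,
    exists_conj hπ hθ hg hirr hb hb₂, ?_⟩
  intro s hs hsb
  obtain ⟨γ, hγ, hγw⟩ := comp_aut (pl θ) (es F (s : k' ≃+* k'))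
    (es_val (F := F) θ (s : k' ≃+* k') hs)
  have hγK : ∀ x : K, γ (algebraMap K L x) = algebraMap K _ x := by
    intro x
    rw [IsScalarTower.algebraMap_apply K F L, hγ, es_K hT]
  obtain ⟨G0, hG0⟩ := exists_G γ
  let G : Sep L ≃ₐ[K] Sep L :=
    AlgEquiv.ofRingEquiv (f := G0) (by
      intro x
      rw [IsScalarTower.algebraMap_apply K L (Sep L), hG0, hγK])
  obtain ⟨δ, hδ⟩ := exists_g ι G
  refine ⟨δ, G, γ, hG0, fun x => (hδ x).symm, ?_, ?_⟩
  · obtain ⟨b₃, hb₃, hιb₃⟩ := hroot (δ α) (hinv δ α hα)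
    have h1 : γ (B b) = B b₃ := by
      apply inj_alg (E := Sep L)
      rw [← hιb₃, hδ, hιb]
      exact (hG0 _).symm
    have h2 : va θ (γ (B b) - em k' F L (C b₂)) < 1 := by
      have h3 := (hB1 b hb).2
      have h4 : γ (em k' F L (C b)) = em k' F L (C b₂) := by
        show γ (algebraMap F L (cst k' F b)) = algebraMap F L (cst k' F b₂)
        rw [hγ, es_cst]
        show algebraMap F L (cst k' F (s b)) = _
        rw [hsb]
      rw [← h4, ← map_sub]
      show wv (pl θ) (γ _) < 1
      rw [hγw]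
      exact h3
    rw [h1] at h2
    have h5 : b₃ = b₂ := UNR.res_uniq (hB1 b₃ hb₃).2 h2
    have h6 : ι (δ α) = ι (σ α) := by rw [hιb₃, hιb₂, h5]
    exact ι.toRingHom.injective h6
  · intro c
    have h1 : ∀ c : k', ι (em k' F (Sep F) (C c)) =
        algebraMap L (Sep L) (algebraMap F L (cst k' F c)) := by
      intro c
      show ι (algebraMap F (Sep F) (cst k' F c)) = _
      rw [ι.commutes, IsScalarTower.algebraMap_apply F L (Sep L)]
    have h2 : ι (δ (em k' F (Sep F) (C c))) = ι (em k' F (Sep F) (C (s c))) := by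
      rw [hδ, h1, h1]
      show G0 _ = _
      rw [hG0, hγ, es_cst]
      rfl
    exact ι.toRingHom.injective h2

end Pool.Agent.Helper85.RG
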